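import Mathlib
import Pool.Agent.W877.UF.Final

/-!
# The Laurent series field: uniform finiteness or the complexity of true arithmetic

`K p` is the field of formal Laurent series over the prime field with `p` elements, with its
valuation ring and arbitrary further relations `I` (symbols with arities in `Sg`; for `Sg = ∅` one
gets the theory of the valued field itself).

Dichotomy: either the structure is tame (in every definable family of subsets of a cartesian power
of the field the number of isolated points is bounded; the images of locally constant definable
correspondences with finite fibres are finite, of bounded size in definable families), or every
arithmetical set of natural numbers is many-one reducible to the theory.  If the theory is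
decidable, then the structure is tame.  For every expansion by a relation with infinitely many
isolated points the second alternative holds, and the theory is undecidable.

Idea of the proof.  The elements with constant coefficient zero are exactly the elements
`z ^ p - z + t y₁ ^ p + ... + t ^ (p - 1) y_{p-1} ^ p`, so a linear functional with values in the
prime field is definable.  With it one formula cuts out every subset of every finite set `B`: the
elements `(b - c)⁻¹`, `b ∈ B`, are linearly independent for a suitable `c`.  With the injection
`(a, b) ↦ a ^ p + t b ^ p` all relations on `B` are cut out too.  The points of a definable set
which are of bounded size and isolated at a given scale form a finite set, so if their number is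
unbounded then sentences can speak about all finite structures, in particular about initial
segments of the natural numbers with addition and multiplication, and can compare numbers given
by different codes.
-/

set_option autoImplicit false

namespace Pool.Agent.Results.MP_db9079_lc.DecidableForcesFiniteness

open Pool.Agent.W877.UF

/-- For the field of Laurent series over the prime field with `p` elements with its valuation ring
and any further relations: (1) the structure is tame or all arithmetical sets reduce to its
theory; (2) if the theory is decidable, then the structure is tame; (3) if one of the further
relations has infinitely many isolated points, then all arithmetical sets reduce to the theory and
the theory is undecidable. -/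
theorem result (p : ℕ) [Fact p.Prime] (I : ℕ → List (K p) → Prop) (Sg : Set (ℕ × ℕ)) :
    (Tame I Sg ∨ ArithReduces I Sg) ∧ (DecidableTheory I Sg → Tame I Sg) ∧
    (∀ k n : ℕ, (k, n) ∈ Sg →
      {v : Fin n → K p | IsolatedN (fun v' => I k (List.ofFn v')) v}.Infinite →
      ArithReduces I Sg ∧ ¬ DecidableTheory I Sg) :=
  final I Sg

end Pool.Agent.Results.MP_db9079_lc.DecidableForcesFiniteness
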